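import Mathlib

/-!
A 2-transitive Steiner 2-system (the lines of an affine plane over a countable field of
characteristic two) whose automorphism group preserves a Steiner 3-system (the parallelograms).
-/

namespace Pool.Agent.Results.MP_19fe04_lc.LinesAndParallelograms

/-- `B` is a Steiner `k`-system on `Ω`: every block has at least `k + 1` elements, there are at
least two blocks, and any `k` distinct points lie in exactly one block. -/
def IsSteiner {Ω : Type} (k : ℕ) (B : Set (Set Ω)) : Prop :=
  (∀ S ∈ B, ((k + 1 : ℕ) : ℕ∞) ≤ S.encard) ∧ (∃ S ∈ B, ∃ T ∈ B, S ≠ T) ∧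
    ∀ x : Fin k → Ω, Function.Injective x → ∃! S : Set Ω, S ∈ B ∧ ∀ i, x i ∈ S

/-- The permutation `g` maps the family `B` onto itself. -/
def Preserves {Ω : Type} (g : Equiv.Perm Ω) (B : Set (Set Ω)) : Prop :=
  {T : Set Ω | ∃ S ∈ B, g '' S = T} = B

/-- The automorphism group of `(Ω, B)` is `k`-transitive on `Ω`. -/
def AutTransitive {Ω : Type} (k : ℕ) (B : Set (Set Ω)) : Prop :=
  ∀ x y : Fin k → Ω, Function.Injective x → Function.Injective y →
    ∃ g : Equiv.Perm Ω, Preserves g B ∧ ∀ i, g (x i) = y i

section plane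

variable {F : Type} [Field F]

/-- The determinant of two vectors of the plane. -/
def dt (u w : F × F) : F := u.1 * w.2 - u.2 * w.1

/-- The line through `p` with direction `v`. -/
def ln (p v : F × F) : Set (F × F) := {x | ∃ t : F, x = p + t • v}

/-- The lines of the affine plane over `F`. -/
def Lines (F : Type) [Field F] : Set (Set (F × F)) := {S | ∃ p v : F × F, v ≠ 0 ∧ S = ln p v}

/-- The parallelograms: four-element sets with sum zero. -/
def Parallelograms (F : Type) [Field F] : Set (Set (F × F)) :=
  {S | ∃ s : Finset (F × F), (s : Set (F × F)) = S ∧ s.card = 4 ∧ ∑ x ∈ s, x = 0}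

lemma dt_eq_zero_iff {u w : F × F} (hu : u ≠ 0) (h : dt u w = 0) : ∃ r : F, w = r • u := by
  unfold dt at h
  by_cases h1 : u.1 = 0
  · have h2 : u.2 ≠ 0 := by
      intro h2; exact hu (Prod.ext h1 h2)
    have hw : w.1 = 0 := by
      have : u.2 * w.1 = 0 := by linear_combination (-1 : F) * h + w.2 * h1
      exact (mul_eq_zero.1 this).resolve_left h2
    refine ⟨w.2 / u.2, Prod.ext ?_ ?_⟩
    · simp [hw, h1]
    · simp only [Prod.smul_snd, smul_eq_mul]; field_simp
  · refine ⟨w.1 / u.1, Prod.ext ?_ ?_⟩
    · simp only [Prod.smul_fst, smul_eq_mul]; field_simp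
    · simp only [Prod.smul_snd, smul_eq_mul]; field_simp; linear_combination h

lemma eq_zero_of_dt {u w x : F × F} (h : dt u w ≠ 0) (h1 : dt u x = 0) (h2 : dt w x = 0) :
    x = 0 := by
  unfold dt at *
  have e1 : x.1 * (u.1 * w.2 - u.2 * w.1) = 0 := by
    linear_combination w.1 * h1 - u.1 * h2
  have e2 : x.2 * (u.1 * w.2 - u.2 * w.1) = 0 := by
    linear_combination w.2 * h1 - u.2 * h2
  exact Prod.ext ((mul_eq_zero.1 e1).resolve_right h) ((mul_eq_zero.1 e2).resolve_right h)

lemma mem_ln_iff {p v x : F × F} (hv : v ≠ 0) : x ∈ ln p v ↔ dt v (x - p) = 0 := by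
  constructor
  · rintro ⟨t, rfl⟩
    simp only [dt, add_sub_cancel_left, Prod.smul_fst, Prod.smul_snd, smul_eq_mul]; ring
  · intro h
    obtain ⟨r, hr⟩ := dt_eq_zero_iff hv h
    exact ⟨r, by rw [← hr]; abel⟩

/-- A line is determined by two of its points. -/
lemma ln_eq {p v x y : F × F} (hx : x ∈ ln p v) (hy : y ∈ ln p v)
    (hxy : x ≠ y) : ln p v = ln x (y - x) := by
  obtain ⟨s, rfl⟩ := hx
  obtain ⟨t, rfl⟩ := hy
  have hst : t - s ≠ 0 := by
    intro h
    apply hxy
    have : t = s := sub_eq_zero.1 h
    rw [this]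
  ext z
  constructor
  · rintro ⟨r, rfl⟩
    refine ⟨(r - s) / (t - s), ?_⟩
    apply Prod.ext
    · simp only [Prod.fst_add, Prod.smul_fst, Prod.fst_sub, smul_eq_mul]; field_simp; ring
    · simp only [Prod.snd_add, Prod.smul_snd, Prod.snd_sub, smul_eq_mul]; field_simp; ring
  · rintro ⟨r, rfl⟩
    refine ⟨s + r * (t - s), ?_⟩
    apply Prod.ext
    · simp only [Prod.fst_add, Prod.smul_fst, Prod.fst_sub, smul_eq_mul]; ring
    · simp only [Prod.snd_add, Prod.smul_snd, Prod.snd_sub, smul_eq_mul]; ring

/-- Disjoint lines are parallel. -/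
lemma dt_of_disjoint {p v q w : F × F} (h : ∀ x, x ∈ ln p v → x ∉ ln q w) : dt v w = 0 := by
  by_contra hd
  have hi : (v.1 * w.2 - v.2 * w.1) * (dt v w)⁻¹ = 1 := mul_inv_cancel₀ hd
  apply h (p + (dt (q - p) w * (dt v w)⁻¹) • v) ⟨_, rfl⟩
  refine ⟨dt (q - p) v * (dt v w)⁻¹, ?_⟩
  generalize (dt v w)⁻¹ = i at hi
  apply Prod.ext
  · simp only [Prod.fst_add, Prod.smul_fst, smul_eq_mul, dt, Prod.fst_sub, Prod.snd_sub]
    linear_combination (q.1 - p.1) * hi
  · simp only [Prod.snd_add, Prod.smul_snd, smul_eq_mul, dt, Prod.fst_sub, Prod.snd_sub]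
    linear_combination (q.2 - p.2) * hi

/-! ### Automorphisms of the plane -/

lemma lines_injective_point {p v : F × F} (hv : v ≠ 0) :
    Function.Injective (fun t : F => p + t • v) := by
  intro s t h
  have h1 : s • v = t • v := add_left_cancel h
  have h2 : (s - t) • v = 0 := by rw [sub_smul, h1, sub_self]
  rcases smul_eq_zero.1 h2 with h | h
  · exact sub_eq_zero.1 h
  · exact absurd h hv

lemma steiner_lines [Infinite F] : IsSteiner 2 (Lines F) := by
  refine ⟨?_, ?_, ?_⟩
  · rintro S ⟨p, v, hv, rfl⟩
    have hinf : (ln p v).Infinite := by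
      have : ln p v = Set.range (fun t : F => p + t • v) := by
        ext x; simp only [ln, Set.mem_range, eq_comm]; rfl
      rw [this]
      exact Set.infinite_range_of_injective (lines_injective_point hv)
    rw [hinf.encard_eq]
    exact le_top
  · refine ⟨ln 0 (1, 0), ⟨0, (1, 0), by simp, rfl⟩, ln 0 (0, 1), ⟨0, (0, 1), by simp, rfl⟩, ?_⟩
    intro h
    have h1 : ((1, 0) : F × F) ∈ ln (0 : F × F) (1, 0) := ⟨1, by simp⟩
    rw [h] at h1
    obtain ⟨t, ht⟩ := h1
    have := congrArg Prod.fst ht
    simp at this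
  · intro x hx
    have hne : x 0 ≠ x 1 := fun h => by
      have := hx h
      simp at this
    have hne' : x 1 - x 0 ≠ 0 := sub_ne_zero.2 (Ne.symm hne)
    refine ⟨ln (x 0) (x 1 - x 0), ⟨⟨x 0, x 1 - x 0, hne', rfl⟩, ?_⟩, ?_⟩
    · intro i
      fin_cases i
      · exact ⟨0, by simp⟩
      · exact ⟨1, by simp⟩
    · rintro S ⟨⟨p, v, _, rfl⟩, hS⟩
      exact ln_eq (hS 0) (hS 1) hne

/-- A linear automorphism taking `(1, 0)` to a given non-zero vector. -/
lemma exists_linear {v : F × F} (hv : v ≠ 0) :
    ∃ L : (F × F) ≃ₗ[F] (F × F), L (1, 0) = v := by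
  obtain ⟨w, hw⟩ : ∃ w : F × F, dt v w = 1 := by
    by_cases h1 : v.1 = 0
    · have h2 : v.2 ≠ 0 := fun h2 => hv (Prod.ext h1 h2)
      refine ⟨(-(v.2)⁻¹, 0), ?_⟩
      simp [dt, h2]
    · refine ⟨(0, (v.1)⁻¹), ?_⟩
      simp [dt, h1]
  unfold dt at hw
  refine ⟨{ toFun := fun x => x.1 • v + x.2 • w
            map_add' := ?_
            map_smul' := ?_
            invFun := fun x => (x.1 * w.2 - x.2 * w.1, v.1 * x.2 - v.2 * x.1)
            left_inv := ?_
            right_inv := ?_ }, ?_⟩
  · intro x y
    simp only [Prod.fst_add, Prod.snd_add, add_smul]; abel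
  · intro c x
    simp only [Prod.smul_fst, Prod.smul_snd, smul_eq_mul, RingHom.id_apply, mul_smul, smul_add]
  · intro x
    apply Prod.ext
    · simp only [Prod.fst_add, Prod.snd_add, Prod.smul_fst, Prod.smul_snd, smul_eq_mul]
      linear_combination x.1 * hw
    · simp only [Prod.fst_add, Prod.snd_add, Prod.smul_fst, Prod.smul_snd, smul_eq_mul]
      linear_combination x.2 * hw
  · intro x
    apply Prod.ext
    · simp only [Prod.fst_add, Prod.smul_fst, smul_eq_mul]
      linear_combination x.1 * hw
    · simp only [Prod.snd_add, Prod.smul_snd, smul_eq_mul]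
      linear_combination x.2 * hw
  · show (1 : F) • v + (0 : F) • w = v
    simp

lemma image_ln (L : (F × F) ≃ₗ[F] (F × F)) (a b p v : F × F) :
    (fun x => L (x - a) + b) '' (ln p v) = ln (L (p - a) + b) (L v) := by
  ext z
  constructor
  · rintro ⟨x, ⟨t, rfl⟩, rfl⟩
    refine ⟨t, ?_⟩
    simp only [map_sub, map_add, map_smul]; abel
  · rintro ⟨t, rfl⟩
    refine ⟨p + t • v, ⟨t, rfl⟩, ?_⟩
    simp only [map_sub, map_add, map_smul]; abel

lemma trans_lines : AutTransitive 2 (Lines F) := by
  intro x y hx hy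
  have hxne : x 1 - x 0 ≠ 0 := sub_ne_zero.2 (fun h => by have := hx h; simp at this)
  have hyne : y 1 - y 0 ≠ 0 := sub_ne_zero.2 (fun h => by have := hy h; simp at this)
  obtain ⟨L1, hL1⟩ := exists_linear hxne
  obtain ⟨L2, hL2⟩ := exists_linear hyne
  let L : (F × F) ≃ₗ[F] (F × F) := L1.symm.trans L2
  have hL : L (x 1 - x 0) = y 1 - y 0 := by
    show L2 (L1.symm (x 1 - x 0)) = _
    rw [← hL1, LinearEquiv.symm_apply_apply, hL2]
  let g : Equiv.Perm (F × F) :=
    { toFun := fun z => L (z - x 0) + y 0
      invFun := fun z => L.symm (z - y 0) + x 0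
      left_inv := fun z => by simp
      right_inv := fun z => by simp }
  refine ⟨g, ?_, ?_⟩
  · ext T
    constructor
    · rintro ⟨S, ⟨p, v, hv, rfl⟩, rfl⟩
      refine ⟨L (p - x 0) + y 0, L v, ?_, image_ln L (x 0) (y 0) p v⟩
      exact fun h => hv ((LinearEquiv.map_eq_zero_iff L).1 h)
    · rintro ⟨p, v, hv, rfl⟩
      refine ⟨ln (L.symm (p - y 0) + x 0) (L.symm v), ⟨_, _, ?_, rfl⟩, ?_⟩
      · exact fun h => hv ((LinearEquiv.map_eq_zero_iff L.symm).1 h)
      · have := image_ln L (x 0) (y 0) (L.symm (p - y 0) + x 0) (L.symm v)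
        refine this.trans ?_
        simp
  · intro i
    fin_cases i
    · show L (x 0 - x 0) + y 0 = y 0
      simp
    · show L (x 1 - x 0) + y 0 = y 1
      rw [hL]; abel

/-! ### Parallelograms -/

lemma add_self_zero [CharP F 2] (x : F × F) : x + x = 0 :=
  Prod.ext (CharTwo.add_self_eq_zero _) (CharTwo.add_self_eq_zero _)

lemma sub_eq_add' [CharP F 2] (x y : F × F) : x - y = x + y := by
  have h := add_self_zero y
  rw [sub_eq_add_neg, neg_eq_of_add_eq_zero_left h]

lemma steiner_par [CharP F 2] [Infinite F] : IsSteiner 3 (Parallelograms F) := by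
  classical
  -- the block through three distinct points
  have hblock : ∀ a b c : F × F, a ≠ b → a ≠ c → b ≠ c →
      ({a, b, c, a + b + c} : Finset (F × F)).card = 4 ∧
      ∑ x ∈ ({a, b, c, a + b + c} : Finset (F × F)), x = 0 := by
    intro a b c hab hac hbc
    have h1 : a ≠ a + b + c := by
      intro h
      apply hbc
      have : b + c = 0 := by
        have h' : a + (b + c) = a + 0 := by rw [add_zero, ← add_assoc]; exact h.symm
        exact add_left_cancel h'
      rw [← sub_eq_add'] at this
      exact sub_eq_zero.1 this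
    have h2 : b ≠ a + b + c := by
      intro h
      apply hac
      have : a + c = 0 := by
        have h' : b + (a + c) = b + 0 := by
          rw [add_zero]; nth_rewrite 2 [h]; abel
        exact add_left_cancel h'
      rw [← sub_eq_add'] at this
      exact sub_eq_zero.1 this
    have h3 : c ≠ a + b + c := by
      intro h
      apply hab
      have : a + b = 0 := by
        have h' : c + (a + b) = c + 0 := by
          rw [add_zero]; nth_rewrite 2 [h]; abel
        exact add_left_cancel h'
      rw [← sub_eq_add'] at this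
      exact sub_eq_zero.1 this
    constructor
    · rw [Finset.card_insert_of_notMem, Finset.card_insert_of_notMem,
        Finset.card_insert_of_notMem, Finset.card_singleton]
      · simpa using h3
      · simp only [Finset.mem_insert, Finset.mem_singleton, not_or]
        exact ⟨hbc, h2⟩
      · simp only [Finset.mem_insert, Finset.mem_singleton, not_or]
        exact ⟨hab, hac, h1⟩
    · rw [Finset.sum_insert, Finset.sum_insert, Finset.sum_insert, Finset.sum_singleton]
      · have : a + (b + (c + (a + b + c))) = (a + b + c) + (a + b + c) := by abel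
        rw [this]; exact add_self_zero _
      · simpa using h3
      · simp only [Finset.mem_insert, Finset.mem_singleton, not_or]
        exact ⟨hbc, h2⟩
      · simp only [Finset.mem_insert, Finset.mem_singleton, not_or]
        exact ⟨hab, hac, h1⟩
  refine ⟨?_, ?_, ?_⟩
  · rintro S ⟨s, rfl, hs, -⟩
    rw [Set.encard_coe_eq_coe_finsetCard, hs]
  · -- two blocks
    obtain ⟨a, ha⟩ := Infinite.exists_notMem_finset ({0, 1} : Finset F)
    simp only [Finset.mem_insert, Finset.mem_singleton, not_or] at ha
    have hb1 := hblock (0, 0) (1, 0) (0, 1) (by simp) (by simp) (by simp)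
    have hb2 := hblock (0, 0) (1, 0) (0, a) (by simp)
      (by simp [Prod.ext_iff]; exact fun h => ha.1 h.symm) (by simp)
    refine ⟨_, ⟨_, rfl, hb1⟩, _, ⟨_, rfl, hb2⟩, ?_⟩
    intro h
    have hmem : ((0, 1) : F × F) ∈
        (({(0, 0), (1, 0), (0, 1), (0, 0) + (1, 0) + (0, 1)} : Finset (F × F)) : Set (F × F)) := by
      simp
    rw [h] at hmem
    simp only [Finset.coe_insert, Finset.coe_singleton, Set.mem_insert_iff,
      Set.mem_singleton_iff, Prod.mk_add_mk, Prod.mk.injEq] at hmem
    rcases hmem with h | h | h | h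
    · exact one_ne_zero h.2
    · exact one_ne_zero h.2
    · exact ha.2 h.2.symm
    · have := h.1; simp at this
  · intro x hx
    have h01 : x 0 ≠ x 1 := fun h => by have := hx h; simp at this
    have h02 : x 0 ≠ x 2 := fun h => by have := hx h; simp at this
    have h12 : x 1 ≠ x 2 := fun h => by have := hx h; simp at this
    have hb := hblock _ _ _ h01 h02 h12
    refine ⟨_, ⟨⟨_, rfl, hb⟩, ?_⟩, ?_⟩
    · intro i
      fin_cases i <;> simp
    · rintro S ⟨⟨s, rfl, hs4, hs0⟩, hS⟩
      have m0 : x 0 ∈ s := hS 0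
      have m1 : x 1 ∈ s := hS 1
      have m2 : x 2 ∈ s := hS 2
      have hsub : ({x 0, x 1, x 2} : Finset (F × F)) ⊆ s := by
        intro z hz
        simp only [Finset.mem_insert, Finset.mem_singleton] at hz
        rcases hz with rfl | rfl | rfl
        · exact m0
        · exact m1
        · exact m2
      have hc3 : ({x 0, x 1, x 2} : Finset (F × F)).card = 3 := by
        rw [Finset.card_insert_of_notMem, Finset.card_insert_of_notMem, Finset.card_singleton]
        · simpa using h12
        · simp only [Finset.mem_insert, Finset.mem_singleton, not_or]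
          exact ⟨h01, h02⟩
      have hcd : (s \ {x 0, x 1, x 2}).card = 1 := by
        rw [Finset.card_sdiff_of_subset hsub, hs4, hc3]
      obtain ⟨w, hw⟩ := Finset.card_eq_one.1 hcd
      have hsu : s = {x 0, x 1, x 2} ∪ {w} := by
        rw [← hw, Finset.union_sdiff_of_subset hsub]
      have hsum : ∑ z ∈ s, z = (x 0 + x 1 + x 2) + w := by
        have := Finset.sum_sdiff (f := fun z : F × F => z) hsub
        rw [hw, Finset.sum_singleton, Finset.sum_insert, Finset.sum_insert,
          Finset.sum_singleton] at this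
        · rw [← this]; abel
        · simpa using h12
        · simp only [Finset.mem_insert, Finset.mem_singleton, not_or]
          exact ⟨h01, h02⟩
      have hwv : w = x 0 + x 1 + x 2 := by
        rw [hs0] at hsum
        have := hsum.symm
        rw [← sub_eq_add'] at this
        exact (sub_eq_zero.1 this).symm
      rw [hsu, hwv]
      ext z
      simp only [Finset.coe_union, Finset.coe_insert, Finset.coe_singleton, Set.mem_union,
        Set.mem_insert_iff, Set.mem_singleton_iff]
      tauto

/-- An automorphism maps the line through two points onto the line through their images. -/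
lemma image_line {g : Equiv.Perm (F × F)} (hg : Preserves g (Lines F)) {a b : F × F}
    (hab : a ≠ b) : g '' (ln a (b - a)) = ln (g a) (g b - g a) := by
  have h1 : g '' (ln a (b - a)) ∈ Lines F := by
    have : g '' (ln a (b - a)) ∈ {T : Set (F × F) | ∃ S ∈ Lines F, g '' S = T} :=
      ⟨_, ⟨a, b - a, sub_ne_zero.2 hab.symm, rfl⟩, rfl⟩
    rwa [hg] at this
  obtain ⟨p, v, _, hpv⟩ := h1
  have ha : g a ∈ g '' (ln a (b - a)) := ⟨a, ⟨0, by simp⟩, rfl⟩
  have hb : g b ∈ g '' (ln a (b - a)) := ⟨b, ⟨1, by simp⟩, rfl⟩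
  rw [hpv] at ha hb ⊢
  exact ln_eq ha hb (fun h => hab (g.injective h))

lemma map_noncol [CharP F 2] {g : Equiv.Perm (F × F)} (hg : Preserves g (Lines F))
    {a b c : F × F} (hab : a ≠ b) (hc : c ∉ ln a (b - a)) :
    g (a + b + c) = g a + g b + g c := by
  have hac : a ≠ c := by
    rintro rfl; exact hc ⟨0, by simp⟩
  have hba : b - a ≠ 0 := sub_ne_zero.2 hab.symm
  have hdt : dt (b - a) (c - a) ≠ 0 := fun h => hc ((mem_ln_iff hba).2 h)
  have hbc : b ∉ ln a (c - a) := by
    intro h
    apply hdt
    have := (mem_ln_iff (sub_ne_zero.2 hac.symm)).1 h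
    unfold dt at *
    linear_combination (-1 : F) * this
  have hd1 : (a + b + c) - c = b - a := by
    rw [sub_eq_add' b a]; abel
  have hd2 : (a + b + c) - b = c - a := by
    rw [sub_eq_add' c a]; abel
  have hcd : c ≠ a + b + c := by
    intro h
    have : (a + b + c) - c = 0 := sub_eq_zero.2 h.symm
    rw [hd1] at this
    exact hba this
  have hbd : b ≠ a + b + c := by
    intro h
    have : (a + b + c) - b = 0 := sub_eq_zero.2 h.symm
    rw [hd2] at this
    exact (sub_ne_zero.2 hac.symm) this
  -- first pair of parallel lines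
  have hdis1 : ∀ x, x ∈ ln (g a) (g b - g a) → x ∉ ln (g c) (g (a + b + c) - g c) := by
    intro x hx hx'
    rw [← image_line hg hab] at hx
    rw [← image_line hg hcd] at hx'
    obtain ⟨y, ⟨t, hy⟩, rfl⟩ := hx
    obtain ⟨y', ⟨s, hy'⟩, hyy⟩ := hx'
    have hyy' : y' = y := g.injective hyy
    apply hc
    refine ⟨t - s, ?_⟩
    rw [hd1] at hy'
    have : c + s • (b - a) = a + t • (b - a) := by rw [← hy', ← hy, hyy']
    have h2 : c = a + t • (b - a) - s • (b - a) := by rw [← this]; abel
    rw [sub_smul]
    nth_rewrite 1 [h2]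
    abel
  have hdis2 : ∀ x, x ∈ ln (g a) (g c - g a) → x ∉ ln (g b) (g (a + b + c) - g b) := by
    intro x hx hx'
    rw [← image_line hg hac] at hx
    rw [← image_line hg hbd] at hx'
    obtain ⟨y, ⟨t, hy⟩, rfl⟩ := hx
    obtain ⟨y', ⟨s, hy'⟩, hyy⟩ := hx'
    have hyy' : y' = y := g.injective hyy
    apply hbc
    refine ⟨t - s, ?_⟩
    rw [hd2] at hy'
    have : b + s • (c - a) = a + t • (c - a) := by rw [← hy', ← hy, hyy']
    have h2 : b = a + t • (c - a) - s • (c - a) := by rw [← this]; abel
    rw [sub_smul]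
    nth_rewrite 1 [h2]
    abel
  have e1 := dt_of_disjoint hdis1
  have e2 := dt_of_disjoint hdis2
  -- the images are not collinear
  have hgc : g c ∉ ln (g a) (g b - g a) := by
    rw [← image_line hg hab]
    rintro ⟨y, hy, hyc⟩
    rw [g.injective hyc] at hy
    exact hc hy
  have hgdt : dt (g b - g a) (g c - g a) ≠ 0 := fun h =>
    hgc ((mem_ln_iff (sub_ne_zero.2 (fun h => hab (g.injective h).symm))).2 h)
  have hz : g (a + b + c) - g c - (g b - g a) = 0 := by
    apply eq_zero_of_dt hgdt
    · unfold dt at *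
      simp only [Prod.fst_sub, Prod.snd_sub] at *
      linear_combination e1
    · unfold dt at *
      simp only [Prod.fst_sub, Prod.snd_sub] at *
      linear_combination e2
  have h3 : g (a + b + c) = g c + (g b - g a) := by
    have := sub_eq_zero.1 hz
    rw [← this]; abel
  rw [h3, sub_eq_add' (g b) (g a)]
  abel

lemma map_sum [CharP F 2] {g : Equiv.Perm (F × F)} (hg : Preserves g (Lines F))
    {a b c : F × F} (hab : a ≠ b) : g (a + b + c) = g a + g b + g c := by
  by_cases hc : c ∈ ln a (b - a)
  · have hba : b - a ≠ 0 := sub_ne_zero.2 hab.symm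
    -- a point off the line
    obtain ⟨e, he⟩ : ∃ e : F × F, e ∉ ln a (b - a) := by
      by_contra hcon
      push Not at hcon
      have h1 := (mem_ln_iff hba).1 (hcon (a + (1, 0)))
      have h2 := (mem_ln_iff hba).1 (hcon (a + (0, 1)))
      apply hba
      unfold dt at h1 h2
      rw [add_sub_cancel_left] at h1 h2
      apply Prod.ext
      · simpa using h2
      · have h1' : -(b - a).2 = 0 := by simpa using h1
        exact neg_eq_zero.1 h1'
    have hf := map_noncol hg hab he
    have hef : e ≠ a + b + e := by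
      intro h
      have : a + b = 0 := by
        have h' : e + (a + b) = e + 0 := by
          rw [add_zero]; nth_rewrite 2 [h]; abel
        exact add_left_cancel h'
      rw [← sub_eq_add'] at this
      exact hab (sub_eq_zero.1 this)
    have hfe : (a + b + e) - e = b - a := by
      rw [sub_eq_add' b a]; abel
    have hcef : c ∉ ln e ((a + b + e) - e) := by
      rw [hfe]
      rintro ⟨s, hs⟩
      obtain ⟨t, ht⟩ := hc
      apply he
      refine ⟨t - s, ?_⟩
      have : e = c - s • (b - a) := by rw [hs]; abel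
      rw [this, sub_smul, ht]; abel
    have hfin := map_noncol hg hef hcef
    have hsum : e + (a + b + e) + c = a + b + c := by
      have : e + (a + b + e) + c = (e + e) + (a + b + c) := by abel
      rw [this, add_self_zero, zero_add]
    rw [hsum, hf] at hfin
    rw [hfin]
    have : g e + (g a + g b + g e) + g c = (g e + g e) + (g a + g b + g c) := by abel
    rw [this, add_self_zero, zero_add]
  · exact map_noncol hg hab hc

lemma image_par [CharP F 2] {g : Equiv.Perm (F × F)} (hg : Preserves g (Lines F))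
    {S : Set (F × F)} (hS : S ∈ Parallelograms F) : g '' S ∈ Parallelograms F := by
  classical
  obtain ⟨s, rfl, hs4, hs0⟩ := hS
  refine ⟨s.image g, by simp, ?_, ?_⟩
  · rw [Finset.card_image_of_injective _ g.injective, hs4]
  · rw [Finset.sum_image (fun x _ y _ h => g.injective h)]
    obtain ⟨a, b, c, d, hab, hac, had, hbc, hbd, hcd, rfl⟩ := Finset.card_eq_four.1 hs4
    rw [Finset.sum_insert (by simp [hab, hac, had]), Finset.sum_insert (by simp [hbc, hbd]),
      Finset.sum_insert (by simp [hcd]), Finset.sum_singleton] at hs0 ⊢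
    have hd : d = a + b + c := by
      have h1 : (a + b + c) + d = 0 := by rw [← hs0]; abel
      rw [← sub_eq_add'] at h1
      exact (sub_eq_zero.1 h1).symm
    rw [hd, map_sum hg hab]
    have : g a + (g b + (g c + (g a + g b + g c))) = (g a + g b + g c) + (g a + g b + g c) := by
      abel
    rw [this, add_self_zero]

omit [Field F] in
lemma preserves_symm {g : Equiv.Perm (F × F)} {B : Set (Set (F × F))} (hg : Preserves g B) :
    Preserves g.symm B := by
  unfold Preserves at *
  ext T
  constructor
  · rintro ⟨S, hS, rfl⟩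
    rw [← hg] at hS
    obtain ⟨S', hS', rfl⟩ := hS
    have : g.symm '' (g '' S') = S' := by
      rw [← Set.image_comp]; simp
    rw [this]; exact hS'
  · intro hT
    refine ⟨g '' T, ?_, ?_⟩
    · rw [← hg]; exact ⟨T, hT, rfl⟩
    · rw [← Set.image_comp]; simp

lemma preserves_par [CharP F 2] {g : Equiv.Perm (F × F)} (hg : Preserves g (Lines F)) :
    Preserves g (Parallelograms F) := by
  ext T
  constructor
  · rintro ⟨S, hS, rfl⟩
    exact image_par hg hS
  · intro hT
    refine ⟨g.symm '' T, image_par (preserves_symm hg) hT, ?_⟩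
    rw [← Set.image_comp]; simp

end plane

/-- There is a Steiner 2-system on a countably infinite set whose automorphism group is
2-transitive and preserves a Steiner 3-system. -/
theorem result : ∃ (k l : ℕ) (Ω : Type) (B C : Set (Set Ω)),
    2 ≤ k ∧ 2 ≤ l ∧ k ≠ l ∧ Countable Ω ∧ Infinite Ω ∧
    IsSteiner k B ∧ AutTransitive k B ∧
    IsSteiner l C ∧ ∀ g : Equiv.Perm Ω, Preserves g B → Preserves g C := by
  have hcount : Countable (AlgebraicClosure (ZMod 2)) := by
    rw [← Cardinal.mk_le_aleph0_iff]
    refine (Algebra.IsAlgebraic.cardinalMk_le_max (ZMod 2) (AlgebraicClosure (ZMod 2))).trans ?_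
    rw [max_le_iff]
    exact ⟨Cardinal.mk_le_aleph0, le_rfl⟩
  exact ⟨2, 3, AlgebraicClosure (ZMod 2) × AlgebraicClosure (ZMod 2), Lines _,
    Parallelograms _, le_rfl, by norm_num, by norm_num, inferInstance, inferInstance,
    steiner_lines, trans_lines, steiner_par, fun _ hg => preserves_par hg⟩

end Pool.Agent.Results.MP_19fe04_lc.LinesAndParallelograms
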